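import Pool.Agent.H54.WB.TargetsB

/-!
# Widths bounded by a function of the size: the sizes of the models are derivable sizes
-/

set_option autoImplicit false

namespace Pool.Agent.H61.WB

open Pool.Agent.H69.Sp Pool.Agent.H69.VR Pool.Agent.H8.VR Pool.Agent.H8.MC Pool.Agent.H8.JS
open Pool.Agent.H8.MP Pool.Agent.H54.WB

theorem ex_below : ∀ Ψ : MS, ∃ m, ∀ m', m ≤ m' → Ψ.Below m'
  | .un i _ => ⟨i + 1, fun _ h => h⟩
  | .bi i _ _ => ⟨i + 1, fun _ h => h⟩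
  | .eq _ _ => ⟨0, fun _ _ => trivial⟩
  | .mem _ _ => ⟨0, fun _ _ => trivial⟩
  | .mod _ _ _ => ⟨0, fun _ _ => trivial⟩
  | .neg φ => ex_below φ
  | .and φ ψ => by
      obtain ⟨a, ha⟩ := ex_below φ
      obtain ⟨b, hb⟩ := ex_below ψ
      exact ⟨max a b, fun m' h => ⟨ha m' ((le_max_left a b).trans h), hb m' ((le_max_right a b).trans h)⟩⟩
  | .ex _ φ => ex_below φ
  | .exS _ φ => ex_below φ

theorem sat_zero {A : Type} {P : ℕ → A → Prop} {R R' : ℕ → A → A → Prop}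
    (h : ∀ a b, R 0 a b ↔ R' 0 a b) : ∀ (Ψ : MS), BinZero Ψ → ∀ (e : ℕ → A) (V : ℕ → Set A),
      (Ψ.Sat P R e V ↔ Ψ.Sat P R' e V)
  | .un i x, _, e, V => Iff.rfl
  | .bi i x y, hz, e, V => by
      have hi : i = 0 := hz
      subst hi
      exact h _ _
  | .eq x y, _, e, V => Iff.rfl
  | .mem x Z, _, e, V => Iff.rfl
  | .mod Z q r, _, e, V => Iff.rfl
  | .neg φ, hz, e, V => not_congr (sat_zero h φ hz e V)
  | .and φ ψ, hz, e, V => and_congr (sat_zero h φ hz.1 e V) (sat_zero h ψ hz.2 e V)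
  | .ex x φ, hz, e, V => exists_congr fun a => sat_zero h φ hz _ V
  | .exS Z φ, hz, e, V => exists_congr fun S => sat_zero h φ hz e _

theorem pf_WGS (hNFE : T_NFE) (hGEX : T_GEX) (hWG1 : T_WG1) (hWG2 : T_WG2) : T_WGS := by
  intro W Ψ hz
  obtain ⟨m0, hm0⟩ := ex_below Ψ
  obtain ⟨m, hm⟩ : ∃ m, m = m0 + 1 := ⟨_, rfl⟩
  have hmp : 0 < m := by omega
  have hΨ : Ψ.Below m := hm0 m (by omega)
  have hb := MS.below_clo hΨ Ψ.vb
  refine ⟨Ψ.clo Ψ.vb, fun k => ?_⟩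
  obtain ⟨H₀, hH⟩ := hGEX W (W.ps k) m
  refine ⟨ext H₀ (.inl 0) (Ψ.clo Ψ.vb), none, fun n => ?_⟩
  constructor
  · rintro ⟨hn, P, G, hC, hs⟩
    haveI : Nonempty (Fin n) := ⟨⟨0, hn⟩⟩
    have hC' : W.LE G k := hC
    obtain ⟨anc, po, ha⟩ := (hNFE W (Fin n) G k).1 hC'
    obtain ⟨c, hc⟩ := hWG1 W (W.ps k) m H₀ hmp hH (Fin n) G P anc po ha
    have h1 : ∀ (e : ℕ → Fin n) (V : ℕ → Set (Fin n)),
        Ψ.Sat P (fun i u v => i = 0 ∧ G.Adj u v) e V := fun e V =>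
      (sat_zero (R := fun _ => G.Adj) (fun a b => by simp) Ψ hz e V).1 (hs e V)
    have h2 := (gen_of_gen hb hc).2 rfl ((dec_iff c Ψ).2 h1)
    have h3 := (gen_fin h2).2
    rwa [Set.ncard_univ, Nat.card_fin] at h3
  · intro h
    have hG : ∀ o ∈ (ext H₀ (.inl 0) (Ψ.clo Ψ.vb)).ops, o.D = {n | 0 < n} := by
      intro y hy
      obtain ⟨o, ho, a, b, -, -, -, -, -, -, k1, -⟩ := mem_ops.1 hy
      rw [k1]
      exact ((hH.ops o).1 ho).1
    obtain ⟨A, _, P, R, c, h1, h2⟩ := der_gen (m := m) hG h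
    have e := Fintype.equivFinOfCardEq h1
    have h3 := gen_map h2 e e.injective (fun i a => P i (e.symm a))
      (fun i a b => R i (e.symm a) (e.symm b)) (fun a => c (e.symm a))
      (fun i a => by simp) (fun i a b => by simp) (fun a _ => by simp)
    have h4 : e '' Set.univ = Set.univ := by
      rw [Set.image_univ]
      exact e.surjective.range_eq
    rw [h4] at h3
    haveI : Nonempty (Fin n) := ⟨⟨0, h.pos⟩⟩
    obtain ⟨g1, g2⟩ := good_of_gen hb h3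
    have g3 := (dec_iff _ Ψ).1 g2
    obtain ⟨s1, s2, anc, po, ha⟩ := hWG2 W (W.ps k) m H₀ hmp hH (Fin n) _ _ _ g1
    let G : SimpleGraph (Fin n) :=
      { Adj := fun a b => R 0 (e.symm a) (e.symm b)
        symm := ⟨fun a b hab => s1 a b hab⟩
        loopless := ⟨fun a ha => s2 a ha⟩ }
    refine ⟨h.pos, fun i a => P i (e.symm a), G, (hNFE W (Fin n) G k).2 ⟨anc, po, ha⟩, fun e' V => ?_⟩
    exact (sat_zero (P := fun i a => P i (e.symm a)) (R := fun i a b => R i (e.symm a) (e.symm b))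
      (R' := fun _ => G.Adj) (fun a b => Iff.rfl) Ψ hz e' V).1 (g3 e' V)

end Pool.Agent.H61.WB
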